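import Pool.Agent.H89.OD.Fin

set_option autoImplicit false

/-!
# The open disc cannot be split into three congruent pieces (MP_b0bf97_co)

Suppose that the open unit disc is the disjoint union of `A`, `F(A)`, `G(A)` with isometries `F`, `G`
of the plane. The points `0`, `F⁻¹(0)`, `G⁻¹(0)` cannot be pairwise different: the closure of `A` lies
in the intersection of the closed discs around them, and the areas of the sets of the directions
which are possible for the boundary points do not suffice. So after a relabelling the pieces are `A`,
`R(A)`, `g(A)` with a rotation `R` around `0` by an angle `b` and an isometry `g` which moves the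
centre by `2 sin (e/2)`, `0 < e ≤ π/3`. Near the boundary circle the labels of the points are
determined on certain arcs. In each of the 15 cases for `(b, c, e)` (`c` the angle of `g`) there is a
point on the boundary or in the disc such that the labels of all points near it which lie in the
open disc, or in a small cone, propagate by `R` and `g` to a contradiction. In the case of the closed
disc, which was settled before, one takes the point itself; now the points have to move, and one
needs strict inequalities and cones in which all the points which are used are in the open disc.
-/

namespace Pool.Agent.Results.MP_b0bf97_co.OpenDisc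

/-- the plane -/
abbrev Plane : Type := EuclideanSpace ℝ (Fin 2)

/-- `B` is the image of `A` under an isometry of the plane -/
def Congruent (A B : Set Plane) : Prop := ∃ φ : Plane ≃ᵢ Plane, φ '' A = B

/-- `X` is the union of `m` pairwise disjoint subsets, any two of which are congruent -/
def Divisible (m : ℕ) (X : Set Plane) : Prop :=
  ∃ P : Fin m → Set Plane, (⋃ i, P i) = X ∧ (∀ i j, i ≠ j → Disjoint (P i) (P j)) ∧
    ∀ i j, Congruent (P i) (P j)

/-- The open unit disc is not 3-divisible. -/
theorem result : ¬ Divisible 3 (Metric.ball (0 : Plane) 1) := by
  rintro ⟨P, hU, hd, hc⟩
  refine Pool.Agent.H89.OD.final ⟨P 0, P 1, P 2, ?_, hd 0 1 (by decide), hd 0 2 (by decide),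
    hd 1 2 (by decide), hc 0 1, hc 0 2⟩
  rw [← hU]
  ext x
  simp only [Set.mem_union, Set.mem_iUnion]
  constructor
  · rintro ((h | h) | h)
    exacts [⟨0, h⟩, ⟨1, h⟩, ⟨2, h⟩]
  · rintro ⟨i, hi⟩
    fin_cases i
    exacts [Or.inl (Or.inl hi), Or.inl (Or.inr hi), Or.inr hi]

end Pool.Agent.Results.MP_b0bf97_co.OpenDisc
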